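import Pool.Agent.H656R2.NPC.Enc

/-!
# Arithmetic is polynomial-time computable
-/

namespace Pool.Agent.H656R2.NPC

/-- The number with a given list of binary digits (least significant first). -/
def valB : List Bool → ℕ
  | [] => 0
  | b :: l => (if b then 1 else 0) + 2 * valB l

@[simp] theorem valB_nil : valB [] = 0 := rfl
@[simp] theorem valB_cons (b : Bool) (l : List Bool) :
    valB (b :: l) = (if b then 1 else 0) + 2 * valB l := rfl

theorem valB_append (l l' : List Bool) : valB (l ++ l') = valB l + 2 ^ l.length * valB l' := by
  induction l with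
  | nil => simp
  | cons b l ih => simp [ih, pow_succ]; ring

theorem valB_bits (n : ℕ) : valB n.bits = n := by
  induction n using Nat.binaryRec' with
  | zero => simp
  | bit b n h ih =>
    rw [Nat.bits_append_bit _ _ h, valB_cons, ih]
    cases b <;> simp [Nat.bit] <;> omega

/-- Normalisation of digit lists. -/
def normB (l : List Bool) : List Bool :=
  l.reverse.foldl (fun acc b => if b = false ∧ acc = [] then [] else b :: acc) []

theorem normB_eq (l : List Bool) : normB l = (valB l).bits := by
  induction l with
  | nil => simp [normB]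
  | cons b l ih =>
    unfold normB at *
    rw [List.reverse_cons, List.foldl_append, List.foldl_cons, List.foldl_nil, ih]
    by_cases hb : b = true
    · subst hb
      simp only [Bool.true_eq_false, false_and, if_false, valB_cons, if_true]
      rw [show 1 + 2 * valB l = Nat.bit true (valB l) by simp [Nat.bit]; omega]
      rw [Nat.bits_append_bit _ _ (by simp)]
    · have hb : b = false := by simpa using hb
      subst hb
      by_cases h0 : valB l = 0
      · simp [h0]
      · have : (valB l).bits ≠ [] := by
          intro h
          apply h0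
          have := valB_bits (valB l)
          rw [h] at this
          simpa using this.symm
        simp only [this, and_false, if_false, valB_cons]
        rw [show (if false = true then 1 else 0) + 2 * valB l = Nat.bit false (valB l) by
          simp [Nat.bit]]
        rw [Nat.bits_append_bit _ _ (by intro h; exact absurd h h0)]

theorem sz_listBool_le (l : List Bool) : sz l ≤ 4 * l.length + 1 := by
  have := sz_le_length_mul l 3 (fun b _ => sz_bool_le b)
  omega

theorem sz_listBool_ge (l : List Bool) : 2 * l.length + 1 ≤ sz l := by
  induction l with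
  | nil => simp
  | cons b l ih =>
    have := sz_pos b
    simp
    omega

theorem sz_nat (n : ℕ) : sz n = sz n.bits := rfl

theorem sz_nat_le (n : ℕ) : sz n ≤ 4 * n.size + 1 := by
  rw [sz_nat, ← Nat.size_eq_bits_len]
  exact sz_listBool_le _

theorem size_le_sz (n : ℕ) : 2 * n.size + 1 ≤ sz n := by
  rw [sz_nat, ← Nat.size_eq_bits_len]
  exact sz_listBool_ge _

theorem sz_nat_mono_le {m n : ℕ} (h : m ≤ n) : sz m ≤ 2 * sz n := by
  have h1 := sz_nat_le m
  have h2 := size_le_sz n
  have h3 := Nat.size_le_size h
  omega

namespace Poly

variable {α β γ δ σ : Type} [TEnc α] [TEnc β] [TEnc γ] [TEnc δ] [TEnc σ]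

theorem natBits {n : α → ℕ} (hn : Poly n) : Poly (fun a => (n a).bits) := hn

theorem of_natBits {n : α → ℕ} (hn : Poly (fun a => (n a).bits)) : Poly n := hn

theorem foldr {l : α → List β} {s : α → σ} {F : α → β → σ → σ} (hl : Poly l) (hs : Poly s)
    (hF : Poly (fun p : α × β × σ => F p.1 p.2.1 p.2.2)) (q : Polynomial ℕ)
    (hq : ∀ a, ∀ k ≤ (l a).length, sz (((l a).drop k).foldr (F a) (s a)) ≤ q.eval (sz a)) :
    Poly (fun a => (l a).foldr (F a) (s a)) := by
  refine (foldl (l := fun a => (l a).reverse) (F := fun a s b => F a b s) (reverse hl) hs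
    (hF.comp (pair (fst id) (pair (snd (snd id)) (fst (snd id))))) q ?_).congr fun a => ?_
  · intro a k hk
    rw [List.take_reverse, List.foldl_reverse]
    exact hq a _ (by omega)
  · rw [List.foldl_reverse]

theorem valBits {l : α → List Bool} (hl : Poly l) : Poly (fun a => valB (l a)) := by
  apply of_natBits
  obtain ⟨r, hr⟩ := hl.sz_le
  have key : ∀ (l acc : List Bool),
      sz (l.foldl (fun acc b => if b = false ∧ acc = [] then [] else b :: acc) acc) ≤
        4 * l.length + sz acc := by
    intro l
    induction l with
    | nil => intro acc; simp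
    | cons b l ih =>
      intro acc
      have h1 := ih (if b = false ∧ acc = [] then [] else b :: acc)
      have h2 : sz (if b = false ∧ acc = [] then [] else b :: acc) ≤ 4 + sz acc := by
        split_ifs
        · simp; omega
        · have := sz_bool_le b
          simp; omega
      simp only [List.foldl_cons, List.length_cons]
      omega
  refine (foldl (l := fun a => (l a).reverse) (s := fun _ => ([] : List Bool))
    (F := fun _ acc b => if b = false ∧ acc = [] then [] else b :: acc) (reverse hl) (const _)
    (ite (decide_and (decide_eq (snd (snd id)) (const false))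
      (decide_eq (fst (snd id)) (const []))) (const []) (cons (snd (snd id)) (fst (snd id))))
    (Polynomial.C 4 * r + Polynomial.C 1) ?_).congr fun a => ?_
  · intro a k hk
    refine (key _ _).trans ?_
    have h1 := hr a
    have h2 := length_lt_sz (l a)
    simp only [List.length_take, List.length_reverse, sz_list_nil, Polynomial.eval_add,
      Polynomial.eval_mul, Polynomial.eval_C]
    omega
  · exact normB_eq (l a)

/-- Iterate a function as many times as a list is long. -/
theorem iterLen {l : α → List β} {s : α → σ} {F : α → σ → σ} (hl : Poly l) (hs : Poly s)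
    (hF : Poly (fun p : α × σ => F p.1 p.2)) (q : Polynomial ℕ)
    (hq : ∀ a, ∀ k ≤ (l a).length, sz ((F a)^[k] (s a)) ≤ q.eval (sz a)) :
    Poly (fun a => (F a)^[(l a).length] (s a)) := by
  have key : ∀ (a : α) (l : List β) (s : σ), l.foldl (fun s _ => F a s) s = (F a)^[l.length] s := by
    intro a l
    induction l with
    | nil => intro s; rfl
    | cons b l ih => intro s; rw [List.foldl_cons, ih]; rfl
  refine (foldl (F := fun a s _ => F a s) hl hs (hF.comp (pair (fst id) (fst (snd id)))) q
    ?_).congr fun a => ?_
  · intro a k hk
    rw [key, List.length_take]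
    exact hq a _ (by omega)
  · rw [key]

end Poly

/-- One step of addition: digits, carry, accumulator. -/
def addStep : List Bool × List Bool × Bool × List Bool → List Bool × List Bool × Bool × List Bool
  | (l, l', c, acc) =>
    (l.tail, l'.tail,
      (((l.head?.getD false) && (l'.head?.getD false)) || (((l.head?.getD false) ^^
        (l'.head?.getD false)) && c)),
      (((l.head?.getD false) ^^ (l'.head?.getD false)) ^^ c) :: acc)

/-- One step of subtraction: digits, borrow, accumulator. -/
def subStep : List Bool × List Bool × Bool × List Bool → List Bool × List Bool × Bool × List Bool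
  | (l, l', c, acc) =>
    (l.tail, l'.tail,
      ((!(l.head?.getD false) && ((l'.head?.getD false) || c)) ||
        ((l'.head?.getD false) && c)),
      (((l.head?.getD false) ^^ (l'.head?.getD false)) ^^ c) :: acc)

theorem addStep_iterate (n : ℕ) : ∀ (l l' : List Bool) (c : Bool) (acc : List Bool),
    ∃ (l₁ l₁' : List Bool) (c₁ : Bool) (acc₁ : List Bool),
      addStep^[n] (l, l', c, acc) = (l₁, l₁', c₁, acc₁) ∧ l₁ = l.drop n ∧ l₁' = l'.drop n ∧
      acc₁.length = n + acc.length ∧
      valB acc₁.reverse + 2 ^ (acc₁.length) * (valB l₁ + valB l₁' + (if c₁ then 1 else 0)) =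
      valB acc.reverse + 2 ^ (acc.length) * (valB l + valB l' + (if c then 1 else 0)) := by
  induction n with
  | zero => intro l l' c acc; exact ⟨l, l', c, acc, rfl, rfl, rfl, by simp, rfl⟩
  | succ n ih =>
    intro l l' c acc
    rw [Function.iterate_succ_apply]
    obtain ⟨l₁, l₁', c₁, acc₁, h1, h2, h3, h4, h5⟩ := ih l.tail l'.tail
      (((l.head?.getD false) && (l'.head?.getD false)) || (((l.head?.getD false) ^^
        (l'.head?.getD false)) && c))
      ((((l.head?.getD false) ^^ (l'.head?.getD false)) ^^ c) :: acc)
    refine ⟨l₁, l₁', c₁, acc₁, h1, ?_, ?_, ?_, ?_⟩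
    · rw [h2]; simp [List.drop_tail]
    · rw [h3]; simp [List.drop_tail]
    · rw [h4]; simp; omega
    · rw [h5, List.reverse_cons, valB_append, List.length_reverse, List.length_cons, pow_succ]
      cases l with
      | nil =>
        cases l' with
        | nil => cases c <;> simp
        | cons b' l' => cases c <;> cases b' <;> simp <;> ring
      | cons b l =>
        cases l' with
        | nil => cases c <;> cases b <;> simp <;> ring
        | cons b' l' => cases c <;> cases b <;> cases b' <;> simp <;> ring

theorem subStep_iterate (n : ℕ) : ∀ (l l' : List Bool) (c : Bool) (acc : List Bool),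
    ∃ (l₁ l₁' : List Bool) (c₁ : Bool) (acc₁ : List Bool),
      subStep^[n] (l, l', c, acc) = (l₁, l₁', c₁, acc₁) ∧ l₁ = l.drop n ∧ l₁' = l'.drop n ∧
      acc₁.length = n + acc.length ∧
      (valB acc₁.reverse : ℤ) + 2 ^ (acc₁.length) * (valB l₁ - valB l₁' - (if c₁ then 1 else 0)) =
      valB acc.reverse + 2 ^ (acc.length) * (valB l - valB l' - (if c then 1 else 0)) := by
  induction n with
  | zero => intro l l' c acc; exact ⟨l, l', c, acc, rfl, rfl, rfl, by simp, rfl⟩
  | succ n ih =>
    intro l l' c acc
    rw [Function.iterate_succ_apply]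
    obtain ⟨l₁, l₁', c₁, acc₁, h1, h2, h3, h4, h5⟩ := ih l.tail l'.tail
      ((!(l.head?.getD false) && ((l'.head?.getD false) || c)) ||
        ((l'.head?.getD false) && c))
      ((((l.head?.getD false) ^^ (l'.head?.getD false)) ^^ c) :: acc)
    refine ⟨l₁, l₁', c₁, acc₁, h1, ?_, ?_, ?_, ?_⟩
    · rw [h2]; simp [List.drop_tail]
    · rw [h3]; simp [List.drop_tail]
    · rw [h4]; simp; omega
    · rw [h5, List.reverse_cons, valB_append, List.length_reverse, List.length_cons, pow_succ]
      push_cast
      cases l with
      | nil =>
        cases l' with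
        | nil => cases c <;> simp; ring
        | cons b' l' => cases c <;> cases b' <;> simp <;> ring
      | cons b l =>
        cases l' with
        | nil => cases c <;> cases b <;> simp <;> ring
        | cons b' l' => cases c <;> cases b <;> cases b' <;> simp <;> ring

theorem valB_lt (l : List Bool) : valB l < 2 ^ l.length := by
  induction l with
  | nil => simp
  | cons b l ih => cases b <;> simp [pow_succ] <;> omega


theorem valB_replicate_false (n : ℕ) (c : Bool) : valB (List.replicate n false ++ [c]) =
    2 ^ n * (if c then 1 else 0) := by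
  rw [valB_append]
  have : ∀ n, valB (List.replicate n false) = 0 := by
    intro n
    induction n with
    | zero => rfl
    | succ n ih => simp [List.replicate_succ, ih]
  rw [this, List.length_replicate]
  cases c <;> simp

theorem add_by_steps (m n k : ℕ) (hk : m.bits.length ≤ k) (hk' : n.bits.length ≤ k) :
    ∃ acc : List Bool, ∃ c : Bool, addStep^[k] (m.bits, n.bits, false, []) = ([], [], c, acc) ∧
      valB (c :: acc).reverse = m + n := by
  obtain ⟨l₁, l₁', c₁, acc₁, h1, h2, h3, h4, h5⟩ := addStep_iterate k m.bits n.bits false []
  rw [List.drop_of_length_le hk] at h2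
  rw [List.drop_of_length_le hk'] at h3
  subst h2 h3
  refine ⟨acc₁, c₁, h1, ?_⟩
  rw [List.reverse_cons, valB_append, List.length_reverse]
  simpa [valB_bits] using h5

theorem sub_by_steps (m n k : ℕ) (hk : m.bits.length ≤ k) (hk' : n.bits.length ≤ k) :
    ∃ acc : List Bool, ∃ c : Bool, subStep^[k] (m.bits, n.bits, false, []) = ([], [], c, acc) ∧
      (c = true ↔ m < n) ∧ (c = false → valB acc.reverse = m - n) := by
  obtain ⟨l₁, l₁', c₁, acc₁, h1, h2, h3, h4, h5⟩ := subStep_iterate k m.bits n.bits false []
  rw [List.drop_of_length_le hk] at h2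
  rw [List.drop_of_length_le hk'] at h3
  subst h2 h3
  have h6 := valB_lt acc₁.reverse
  rw [List.length_reverse] at h6
  have h7 : ((valB acc₁.reverse : ℕ) : ℤ) < 2 ^ acc₁.length := by exact_mod_cast h6
  simp [valB_bits] at h5
  refine ⟨acc₁, c₁, h1, ?_, ?_⟩
  · cases c₁
    · simp at h5 ⊢
      omega
    · simp at h5 ⊢
      have : (0 : ℤ) ≤ valB acc₁.reverse := by positivity
      omega
  · intro hc
    subst hc
    simp at h5
    omega

namespace Poly

variable {α β γ δ σ : Type} [TEnc α] [TEnc β] [TEnc γ] [TEnc δ] [TEnc σ]

theorem head?_getD {l : α → List β} (hl : Poly l) (d : β) :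
    Poly (fun a => (l a).head?.getD d) :=
  (optCases (head? hl) (const d) (h := fun _ b => b) (snd id)).congr fun a => by
    cases (l a).head? <;> rfl

theorem addStep : Poly addStep := by
  have h1 : Poly (fun x : List Bool × List Bool × Bool × List Bool => x.1.head?.getD false) :=
    head?_getD (fst id) false
  have h2 : Poly (fun x : List Bool × List Bool × Bool × List Bool => x.2.1.head?.getD false) :=
    head?_getD (fst (snd id)) false
  have h3 : Poly (fun x : List Bool × List Bool × Bool × List Bool => x.2.2.1) :=
    fst (snd (snd id))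
  exact pair (tail (fst id)) (pair (tail (fst (snd id))) (pair
    (or (and h1 h2) (and (xor h1 h2) h3)) (cons (xor (xor h1 h2) h3) (snd (snd (snd id))))))

theorem subStep : Poly subStep := by
  have h1 : Poly (fun x : List Bool × List Bool × Bool × List Bool => x.1.head?.getD false) :=
    head?_getD (fst id) false
  have h2 : Poly (fun x : List Bool × List Bool × Bool × List Bool => x.2.1.head?.getD false) :=
    head?_getD (fst (snd id)) false
  have h3 : Poly (fun x : List Bool × List Bool × Bool × List Bool => x.2.2.1) :=
    fst (snd (snd id))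
  exact pair (tail (fst id)) (pair (tail (fst (snd id))) (pair
    (or (and (not h1) (or h2 h3)) (and h2 h3)) (cons (xor (xor h1 h2) h3) (snd (snd (snd id))))))

theorem addIter {l l' : α → List Bool} (hl : Poly l) (hl' : Poly l') :
    Poly (fun a => NPC.addStep^[(l a ++ l' a).length] (l a, l' a, false, ([] : List Bool))) := by
  obtain ⟨r, hr⟩ := hl.sz_le
  obtain ⟨r', hr'⟩ := hl'.sz_le
  refine iterLen (l := fun a => l a ++ l' a) (F := fun _ s => NPC.addStep s) (append hl hl')
    (pair hl (pair hl' (pair (const false) (const [])))) (addStep.comp (snd id))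
    (Polynomial.C 5 * (r + r') + Polynomial.C 20) ?_
  intro a k hk
  obtain ⟨l₁, l₁', c₁, acc₁, h1, h2, h3, h4, h5⟩ := addStep_iterate k (l a) (l' a) false []
  rw [h1, h2, h3]
  have e1 := sz_drop_le (l a) k
  have e2 := sz_drop_le (l' a) k
  have e3 := sz_bool_le c₁
  have e4 := sz_listBool_le acc₁
  have e5 := hr a
  have e6 := hr' a
  have e7 := length_lt_sz (l a)
  have e8 := length_lt_sz (l' a)
  simp only [List.length_append, List.length_nil] at hk h4
  simp only [sz_pair, Polynomial.eval_add, Polynomial.eval_mul, Polynomial.eval_C]
  omega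

theorem subIter {l l' : α → List Bool} (hl : Poly l) (hl' : Poly l') :
    Poly (fun a => NPC.subStep^[(l a ++ l' a).length] (l a, l' a, false, ([] : List Bool))) := by
  obtain ⟨r, hr⟩ := hl.sz_le
  obtain ⟨r', hr'⟩ := hl'.sz_le
  refine iterLen (l := fun a => l a ++ l' a) (F := fun _ s => NPC.subStep s) (append hl hl')
    (pair hl (pair hl' (pair (const false) (const [])))) (subStep.comp (snd id))
    (Polynomial.C 5 * (r + r') + Polynomial.C 20) ?_
  intro a k hk
  obtain ⟨l₁, l₁', c₁, acc₁, h1, h2, h3, h4, h5⟩ := subStep_iterate k (l a) (l' a) false []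
  rw [h1, h2, h3]
  have e1 := sz_drop_le (l a) k
  have e2 := sz_drop_le (l' a) k
  have e3 := sz_bool_le c₁
  have e4 := sz_listBool_le acc₁
  have e5 := hr a
  have e6 := hr' a
  have e7 := length_lt_sz (l a)
  have e8 := length_lt_sz (l' a)
  simp only [List.length_append, List.length_nil] at hk h4
  simp only [sz_pair, Polynomial.eval_add, Polynomial.eval_mul, Polynomial.eval_C]
  omega

/-- Addition of natural numbers (in binary). -/
theorem add {m n : α → ℕ} (hm : Poly m) (hn : Poly n) : Poly (fun a => m a + n a) := by
  have h := addIter hm.natBits hn.natBits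
  refine (valBits (reverse (cons (fst (snd (snd h))) (snd (snd (snd h)))))).congr fun a => ?_
  obtain ⟨acc, c, h1, h2⟩ := add_by_steps (m a) (n a) ((m a).bits ++ (n a).bits).length
    (by simp) (by simp)
  rw [h1]
  exact h2

/-- Truncated subtraction of natural numbers (in binary). -/
theorem sub {m n : α → ℕ} (hm : Poly m) (hn : Poly n) : Poly (fun a => m a - n a) := by
  have h := subIter hm.natBits hn.natBits
  refine (cond (fst (snd (snd h))) (const 0) (valBits (reverse (snd (snd (snd h)))))).congr
    fun a => ?_
  obtain ⟨acc, c, h1, h2, h3⟩ := sub_by_steps (m a) (n a) ((m a).bits ++ (n a).bits).length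
    (by simp) (by simp)
  rw [h1]
  cases c
  · simpa using h3 rfl
  · have := h2.1 rfl
    simp only [cond_true]
    omega

theorem decide_lt {m n : α → ℕ} (hm : Poly m) (hn : Poly n) :
    Poly (fun a => decide (m a < n a)) := by
  have h := subIter hm.natBits hn.natBits
  refine (fst (snd (snd h))).congr fun a => ?_
  obtain ⟨acc, c, h1, h2, h3⟩ := sub_by_steps (m a) (n a) ((m a).bits ++ (n a).bits).length
    (by simp) (by simp)
  rw [h1]
  cases c
  · have : ¬ (m a < n a) := fun h => by simpa using h2.2 h
    simp [this]
  · have := h2.1 rfl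
    simp [this]

theorem decide_le {m n : α → ℕ} (hm : Poly m) (hn : Poly n) :
    Poly (fun a => decide (m a ≤ n a)) :=
  (not (decide_lt hn hm)).congr fun a => by
    by_cases h : n a < m a
    · simp [h]
    · simp [h, not_lt.1 h]

theorem succ {m : α → ℕ} (hm : Poly m) : Poly (fun a => m a + 1) := add hm (const 1)

theorem max {m n : α → ℕ} (hm : Poly m) (hn : Poly n) : Poly (fun a => Max.max (m a) (n a)) :=
  (ite (decide_le hm hn) hn hm).congr fun a => by
    split_ifs with h
    · exact (max_eq_right h).symm
    · exact (max_eq_left (by omega)).symm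

theorem min {m n : α → ℕ} (hm : Poly m) (hn : Poly n) : Poly (fun a => Min.min (m a) (n a)) :=
  (ite (decide_le hm hn) hm hn).congr fun a => by
    split_ifs with h
    · exact (min_eq_left h).symm
    · exact (min_eq_right (by omega)).symm

theorem mul_key (n : ℕ) : ∀ l : List Bool,
    l.foldr (fun b acc => 2 * acc + (if b then n else 0)) 0 = valB l * n := by
  intro l
  induction l with
  | nil => simp
  | cons b l ih =>
    rw [List.foldr_cons, ih, valB_cons]
    cases b <;> simp <;> ring

/-- Multiplication of natural numbers (in binary). -/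
theorem mul {m n : α → ℕ} (hm : Poly m) (hn : Poly n) : Poly (fun a => m a * n a) := by
  obtain ⟨r, hr⟩ := hm.sz_le
  obtain ⟨r', hr'⟩ := hn.sz_le
  refine (foldr (l := fun a => (m a).bits) (s := fun _ => 0)
    (F := fun a b acc => 2 * acc + (if b then n a else 0)) hm.natBits (const 0) ?_
    (Polynomial.C 4 * (r + r') + Polynomial.C 10) ?_).congr fun a => ?_
  · have h1 : Poly (fun p : α × Bool × ℕ => p.2.2) := snd (snd id)
    refine (add (add h1 h1) (ite (p := fun p : α × Bool × ℕ => p.2.1 = true)
      (decide_bool (fst (snd id))) (hn.comp (fst id)) (const 0))).congr fun a => ?_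
    ring_nf
  · intro a k hk
    rw [mul_key]
    have h1 := sz_nat_le (NPC.valB ((m a).bits.drop k) * n a)
    have h2 : NPC.valB ((m a).bits.drop k) * n a < 2 ^ ((m a).size + (n a).size) := by
      have h3 := valB_lt ((m a).bits.drop k)
      have h4 := Nat.lt_size_self (n a)
      have h5 : 2 ^ ((m a).bits.drop k).length ≤ 2 ^ (m a).size := by
        apply Nat.pow_le_pow_right (by norm_num)
        rw [← Nat.size_eq_bits_len]
        simp
      rw [pow_add]
      have h6 : NPC.valB ((m a).bits.drop k) < 2 ^ (m a).size := lt_of_lt_of_le h3 h5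
      exact Nat.mul_lt_mul'' h6 h4
    have h3 := Nat.size_le.2 h2
    have h4 := size_le_sz (m a)
    have h5 := size_le_sz (n a)
    have h6 := hr a
    have h7 := hr' a
    simp only [Polynomial.eval_add, Polynomial.eval_mul, Polynomial.eval_C]
    omega
  · rw [mul_key, valB_bits]

/-- One step of long division of a number given by its digits. -/
def divStep (n : ℕ) (b : Bool) (s : ℕ × ℕ) : ℕ × ℕ :=
  bif decide (0 < n) then (bif decide (2 * s.2 + (bif b then 1 else 0) < n)
    then (2 * s.1, 2 * s.2 + (bif b then 1 else 0))
    else (2 * s.1 + 1, 2 * s.2 + (bif b then 1 else 0) - n)) else s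

theorem divStep_poly : Poly (fun p : ℕ × Bool × ℕ × ℕ => divStep p.1 p.2.1 p.2.2) := by
  have hb : Poly (fun p : ℕ × Bool × ℕ × ℕ => 2 * p.2.2.2 + (bif p.2.1 then 1 else 0)) :=
    add (mul (const 2) (snd (snd (snd id)))) (cond (fst (snd id)) (const 1) (const 0))
  exact cond (decide_lt (const 0) (fst id)) (cond (decide_lt hb (fst id))
    (pair (mul (const 2) (fst (snd (snd id)))) hb)
    (pair (succ (mul (const 2) (fst (snd (snd id))))) (sub hb (fst id)))) (snd (snd id))

theorem divmod_key (n : ℕ) (hn : 0 < n) : ∀ l : List Bool,
    l.foldr (divStep n) (0, 0) = (valB l / n, valB l % n) := by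
  intro l
  induction l with
  | nil => simp
  | cons b l ih =>
    rw [List.foldr_cons, ih, valB_cons]
    have h1 := Nat.div_add_mod (valB l) n
    have h2 := Nat.mod_lt (valB l) hn
    unfold divStep
    set q := valB l / n
    set r := valB l % n
    have he' : (bif b then 1 else 0) = (if b = true then 1 else 0) := by cases b <;> rfl
    rw [he']
    set e : ℕ := if b then 1 else 0
    have he : e ≤ 1 := by simp only [e]; split_ifs <;> omega
    simp only [hn, decide_true, cond_true]
    by_cases h : 2 * r + e < n
    · have h3 : e + 2 * valB l = (2 * r + e) + n * (2 * q) := by rw [← h1]; ring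
      rw [h3, Nat.add_mul_div_left _ _ hn, Nat.div_eq_of_lt h, Nat.add_mul_mod_self_left,
        Nat.mod_eq_of_lt h]
      simp [h]
    · have h3 : e + 2 * valB l = (2 * r + e - n) + n * (2 * q + 1) := by
        have : 2 * r + e - n + n * (2 * q + 1) = 2 * r + e + n * (2 * q) := by
          rw [mul_add, mul_one]; omega
        rw [this, ← h1]; ring
      rw [h3, Nat.add_mul_div_left _ _ hn, Nat.div_eq_of_lt (by omega), Nat.add_mul_mod_self_left,
        Nat.mod_eq_of_lt (by omega)]
      simp [h]

theorem divmod_key0 : ∀ (l : List Bool) (s : ℕ × ℕ), l.foldr (divStep 0) s = s := by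
  intro l s
  induction l with
  | nil => rfl
  | cons b l ih => rw [List.foldr_cons, ih]; simp [divStep]

theorem divmod {m n : α → ℕ} (hm : Poly m) (hn : Poly n) :
    Poly (fun a => (m a / n a, m a % n a)) := by
  obtain ⟨r, hr⟩ := hm.sz_le
  have e1 : Poly (fun p : α × Bool × ℕ × ℕ => divStep (n p.1) p.2.1 p.2.2) :=
    comp (g := fun p : ℕ × Bool × ℕ × ℕ => divStep p.1 p.2.1 p.2.2)
      (f := fun p : α × Bool × ℕ × ℕ => (n p.1, p.2)) divStep_poly
      (pair (hn.comp (fst id)) (snd id))
  have e2 : Poly (fun a => (m a).bits) := hm.natBits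
  have e3 : Poly (fun _ : α => ((0, 0) : ℕ × ℕ)) := const _
  have h1 : Poly (fun a => (m a).bits.foldr (divStep (n a)) (0, 0)) := by
    refine foldr (F := fun a b s => divStep (n a) b s) e2 e3 e1
      (Polynomial.C 4 * r + Polynomial.C 10) ?_
    intro a k hk
    change sz (((m a).bits.drop k).foldr (divStep (n a)) (0, 0)) ≤ _
    rcases Nat.eq_zero_or_pos (n a) with hn0 | hn0
    · rw [hn0, divmod_key0]
      have : sz ((0, 0) : ℕ × ℕ) = 3 := by simp [sz_nat]
      rw [this, Polynomial.eval_add, Polynomial.eval_C]
      omega
    · rw [divmod_key _ hn0]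
      have h3 := valB_lt ((m a).bits.drop k)
      have h5 : 2 ^ ((m a).bits.drop k).length ≤ 2 ^ (m a).size := by
        apply Nat.pow_le_pow_right (by norm_num)
        rw [← Nat.size_eq_bits_len]
        simp
      have h6 : valB ((m a).bits.drop k) / n a < 2 ^ (m a).size :=
        lt_of_le_of_lt (Nat.div_le_self _ _) (lt_of_lt_of_le h3 h5)
      have h7 : valB ((m a).bits.drop k) % n a < 2 ^ (m a).size :=
        lt_of_le_of_lt (Nat.mod_le _ _) (lt_of_lt_of_le h3 h5)
      have h8 := Nat.size_le.2 h6
      have h9 := Nat.size_le.2 h7
      have h10 := sz_nat_le (valB ((m a).bits.drop k) / n a)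
      have h11 := sz_nat_le (valB ((m a).bits.drop k) % n a)
      have h12 := size_le_sz (m a)
      have h13 := hr a
      simp only [sz_pair, Polynomial.eval_add, Polynomial.eval_mul, Polynomial.eval_C]
      omega
  refine (cond (decide_lt (const 0) hn) h1 (pair (const 0) hm)).congr fun a => ?_
  rcases Nat.eq_zero_or_pos (n a) with hn0 | hn0
  · simp [hn0]
  · simp only [hn0, decide_true, cond_true]
    rw [divmod_key _ hn0, valB_bits]

theorem div {m n : α → ℕ} (hm : Poly m) (hn : Poly n) : Poly (fun a => m a / n a) :=
  fst (divmod hm hn)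

theorem mod {m n : α → ℕ} (hm : Poly m) (hn : Poly n) : Poly (fun a => m a % n a) :=
  snd (divmod hm hn)

/-! #### Lengths, ranges, indices -/

theorem size_le_self (n : ℕ) : n.size ≤ n := Nat.size_le.2 Nat.lt_two_pow_self

theorem length {l : α → List β} (hl : Poly l) : Poly (fun a => (l a).length) := by
  obtain ⟨r, hr⟩ := hl.sz_le
  have key : ∀ k m : ℕ, (fun n => n + 1)^[k] m = m + k := by
    intro k
    induction k with
    | zero => intro m; rfl
    | succ k ih => intro m; rw [Function.iterate_succ_apply, ih]; omega
  refine (iterLen (s := fun _ => 0) (F := fun _ n => n + 1) hl (const 0) (succ (snd id))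
    (Polynomial.C 4 * r + Polynomial.C 1) ?_).congr fun a => ?_
  · intro a k hk
    rw [key]
    have h1 := sz_nat_le (0 + k)
    have h2 := size_le_self (0 + k)
    have h3 := length_lt_sz (l a)
    have h4 := hr a
    simp only [Polynomial.eval_add, Polynomial.eval_mul, Polynomial.eval_C]
    omega
  · rw [key, zero_add]

theorem sz_range_le (n : ℕ) : ∀ k ≤ n, sz (List.range k) ≤ k * (4 * n + 2) + 1 := by
  intro k hk
  have := sz_le_length_mul (List.range k) (4 * n + 1) (by
    intro a ha
    rw [List.mem_range] at ha
    have h1 := sz_nat_le a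
    have h2 := size_le_self a
    omega)
  simpa using this

/-- `[0, ..., length - 1]`. -/
theorem range_length {l : α → List β} (hl : Poly l) :
    Poly (fun a => List.range (l a).length) := by
  obtain ⟨r, hr⟩ := hl.sz_le
  have key : ∀ k : ℕ, (fun s : ℕ × List ℕ => (s.1 + 1, s.2 ++ [s.1]))^[k] (0, []) =
      (k, List.range k) := by
    intro k
    induction k with
    | zero => rfl
    | succ k ih => rw [Function.iterate_succ_apply', ih, List.range_succ]
  refine (snd (iterLen (s := fun _ => ((0, []) : ℕ × List ℕ))
    (F := fun _ s => (s.1 + 1, s.2 ++ [s.1])) hl (const _)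
    (pair (succ (fst (snd id))) (append (snd (snd id)) (cons (fst (snd id)) (const []))))
    (Polynomial.C 4 * r + r * (Polynomial.C 4 * r + Polynomial.C 2) + Polynomial.C 3)
      ?_)).congr fun a => ?_
  · intro a k hk
    rw [key]
    have h1 := sz_nat_le k
    have h2 := size_le_self k
    have h3 := length_lt_sz (l a)
    have h4 := hr a
    have h5 := sz_range_le _ k le_rfl
    have h6 : k ≤ r.eval (sz a) := by omega
    have h7 : k * (4 * k + 2) ≤ r.eval (sz a) * (4 * r.eval (sz a) + 2) :=
      Nat.mul_le_mul h6 (by omega)
    simp only [sz_pair, Polynomial.eval_add, Polynomial.eval_mul, Polynomial.eval_C]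
    omega
  · rw [key]

theorem zip {l : α → List β} {l' : α → List γ} (hl : Poly l) (hl' : Poly l') :
    Poly (fun a => (l a).zip (l' a)) := by
  obtain ⟨r, hr⟩ := hl.sz_le
  obtain ⟨r', hr'⟩ := hl'.sz_le
  have key : ∀ (l : List β) (l' : List γ) (acc : List (β × γ)),
      l.foldl (fun (s : List γ × List (β × γ)) b =>
        match s.1 with
        | [] => s
        | c :: t => (t, (b, c) :: s.2)) (l', acc) =
      (l'.drop l.length, (l.zip l').reverse ++ acc) := by
    intro l
    induction l with
    | nil => intro l' acc; simp
    | cons b l ih =>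
      intro l' acc
      cases l' with
      | nil => rw [List.foldl_cons]; simp only; rw [ih]; simp
      | cons c l' => rw [List.foldl_cons]; simp only; rw [ih]; simp
  have key2 : ∀ (l : List β) (l' : List γ), sz (l.zip l') ≤ sz l + sz l' := by
    intro l
    induction l with
    | nil => intro l'; simp
    | cons b l ih =>
      intro l'
      cases l' with
      | nil => simp
      | cons c l' =>
        have := ih l'
        simp
        omega
  have hF : Poly (fun p : α × (List γ × List (β × γ)) × β =>
      match p.2.1.1 with
        | [] => p.2.1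
        | c :: t => (t, (p.2.2, c) :: p.2.1.2)) :=
    listCases (fst (fst (snd id))) (fst (snd id)) (h := fun p c t => (t, (p.2.2, c) :: p.2.1.2))
      (pair (snd (snd id)) (cons (pair (snd (snd (fst id))) (fst (snd id)))
        (snd (fst (snd (fst id))))))
  refine (reverse (snd (foldl (s := fun a => (l' a, ([] : List (β × γ))))
    (F := fun _ (s : List γ × List (β × γ)) b =>
        match s.1 with
        | [] => s
        | c :: t => (t, (b, c) :: s.2)) hl (pair hl' (const [])) hF
        (r + Polynomial.C 2 * r' + Polynomial.C 2) ?_))).congr fun a => ?_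
  · intro a k hk
    rw [key, List.append_nil]
    have h1 := sz_drop_le (l' a) ((l a).take k).length
    have h2 := key2 ((l a).take k) (l' a)
    have h3 := sz_take_le (l a) k
    have h4 := hr a
    have h5 := hr' a
    simp only [sz_pair, sz_reverse, Polynomial.eval_add, Polynomial.eval_mul, Polynomial.eval_C]
    omega
  · rw [key, List.append_nil, List.reverse_reverse]

theorem zipIdx {l : α → List β} (hl : Poly l) : Poly (fun a => (l a).zipIdx) :=
  (zip hl (range_length hl)).congr fun a => by
    apply List.ext_getElem
    · simp
    · intro i h1 h2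
      simp

theorem getElem? {l : α → List β} {n : α → ℕ} (hl : Poly l) (hn : Poly n) :
    Poly (fun a => (l a)[n a]?) := by
  have h1 : Poly (fun a => ((l a).zipIdx.filter (fun p => decide (p.2 = n a))).head?) :=
    head? (filter (p := fun a (p : β × ℕ) => decide (p.2 = n a)) (zipIdx hl)
      (decide_eq (snd (snd id)) (hn.comp (fst id))))
  refine (optCases (g := fun _ => none) (h := fun _ b => Option.some b.1) h1 (const none)
    (some (fst (snd id)))).congr fun a => ?_
  have key : ∀ (l : List β) (n k : ℕ), ((l.zipIdx k).filter
      (fun p => decide (p.2 = n + k))).head?.map (fun b => b.1) = l[n]? := by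
    intro l
    induction l with
    | nil => intro n k; simp
    | cons b l ih =>
      intro n k
      cases n with
      | zero => simp
      | succ n =>
        have := ih n (k + 1)
        rw [List.zipIdx_cons, List.filter_cons]
        have hne : ¬ (k = n + 1 + k) := by omega
        simp only [hne, decide_false, Bool.false_eq_true, if_false, List.getElem?_cons_succ]
        rw [← this]
        congr 4
        funext p
        simp only [decide_eq_decide]
        omega
  have := key (l a) (n a) 0
  simp only [add_zero] at this
  rw [← this]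
  cases (List.filter (fun p : β × ℕ => decide (p.2 = n a)) (l a).zipIdx).head? <;> rfl

theorem getD {l : α → List β} {n : α → ℕ} {d : α → β} (hl : Poly l) (hn : Poly n)
    (hd : Poly d) : Poly (fun a => (l a).getD (n a) (d a)) :=
  (optCases (getElem? hl hn) hd (h := fun _ b => b) (snd id)).congr fun a => by
    rw [List.getD_eq_getElem?_getD]
    cases (l a)[n a]? <;> rfl

theorem sum {l : α → List ℕ} (hl : Poly l) : Poly (fun a => (l a).sum) := by
  obtain ⟨r, hr⟩ := hl.sz_le
  refine (foldr (s := fun _ => 0) (F := fun _ x s => x + s) hl (const 0)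
    (add (fst (snd id)) (snd (snd id))) (Polynomial.C 4 * r + Polynomial.C 1) ?_).congr fun a => ?_
  · intro a k hk
    have key : ∀ l : List ℕ, (l.foldr (fun x s => x + s) 0).size ≤ sz l := by
      intro l
      induction l with
      | nil => simp
      | cons x l ih =>
        rw [List.foldr_cons]
        set s := l.foldr (fun x s => x + s) 0
        have h1 := Nat.lt_size_self x
        have h2 := Nat.lt_size_self s
        have h3 : x + s < 2 ^ (x.size + s.size + 1) := by
          have h4 : 2 ^ x.size ≤ 2 ^ (x.size + s.size) := Nat.pow_le_pow_right (by norm_num)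
            (by omega)
          have h5 : 2 ^ s.size ≤ 2 ^ (x.size + s.size) := Nat.pow_le_pow_right (by norm_num)
            (by omega)
          rw [pow_succ]
          omega
        have h4 := Nat.size_le.2 h3
        have h5 := size_le_sz x
        simp
        omega
    have h1 := sz_nat_le (((l a).drop k).foldr (fun x s => x + s) 0)
    have h2 := key ((l a).drop k)
    have h3 := sz_drop_le (l a) k
    have h4 := hr a
    simp only [Polynomial.eval_add, Polynomial.eval_mul, Polynomial.eval_C]
    omega
  · rfl

end Poly

/-- A natural-number valued function computable in unary in polynomial time. -/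
def UPoly {α : Type} [TEnc α] (n : α → ℕ) : Prop := Poly (fun a => List.replicate (n a) ())

namespace UPoly

variable {α β : Type} [TEnc α] [TEnc β]

theorem length {l : α → List β} (hl : Poly l) : UPoly (fun a => (l a).length) :=
  (Poly.map hl (F := fun _ _ => ()) (Poly.const ())).congr fun a => by simp

theorem const (n : ℕ) : UPoly (fun _ : α => n) := Poly.const _

theorem add {m n : α → ℕ} (hm : UPoly m) (hn : UPoly n) : UPoly (fun a => m a + n a) :=
  (Poly.append hm hn).congr fun a => by rw [List.replicate_append_replicate]

theorem mul {m n : α → ℕ} (hm : UPoly m) (hn : UPoly n) : UPoly (fun a => m a * n a) :=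
  (Poly.flatMap (F := fun a _ => List.replicate (n a) ()) hm (hn.comp (Poly.fst Poly.id))).congr
    fun a => by
      rw [List.eq_replicate_iff]
      refine ⟨?_, fun _ _ => rfl⟩
      simp [List.length_flatMap]

theorem eval {n : α → ℕ} (hn : UPoly n) (p : Polynomial ℕ) : UPoly (fun a => p.eval (n a)) := by
  induction p using Polynomial.induction_on' with
  | add p q hp hq => simpa only [Polynomial.eval_add] using add hp hq
  | monomial k c =>
    simp only [Polynomial.eval_monomial]
    refine mul (const c) ?_
    induction k with
    | zero => simpa using const 1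
    | succ k ih => simpa only [pow_succ] using mul ih hn

theorem toPoly {n : α → ℕ} (hn : UPoly n) : Poly n :=
  (Poly.length hn).congr fun a => by simp

theorem range {n : α → ℕ} (hn : UPoly n) : Poly (fun a => List.range (n a)) :=
  (Poly.range_length hn).congr fun a => by simp

theorem comp {n : β → ℕ} {f : α → β} (hn : UPoly n) (hf : Poly f) : UPoly (fun a => n (f a)) :=
  Poly.comp hn hf

theorem of_le {m n : α → ℕ} (hm : Poly m) (hn : UPoly n) (h : ∀ a, m a ≤ n a) : UPoly m := by
  have h1 : Poly (fun a => (List.range (n a)).filter (fun k => decide (k < m a))) :=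
    Poly.filter (p := fun a k => decide (k < m a)) hn.range
      (Poly.decide_lt (Poly.snd Poly.id) (hm.comp (Poly.fst Poly.id)))
  refine (length h1).congr fun a => ?_
  congr 1
  have key : ∀ m n : ℕ, m ≤ n → ((List.range n).filter (fun k => decide (k < m))).length = m := by
    intro m n hmn
    have : (List.range n).filter (fun k => decide (k < m)) = List.range m := by
      obtain ⟨d, rfl⟩ := Nat.exists_eq_add_of_le hmn
      rw [List.range_add, List.filter_append]
      have h1 : (List.range m).filter (fun k => decide (k < m)) = List.range m := by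
        rw [List.filter_eq_self]
        intro k hk
        simpa using hk
      have h2 : ((List.range d).map (fun x => m + x)).filter (fun k => decide (k < m)) = [] := by
        rw [List.filter_eq_nil_iff]
        intro k hk
        simp at hk ⊢
        omega
      rw [h1, h2, List.append_nil]
    rw [this, List.length_range]
  exact key _ _ (h a)

end UPoly

end Pool.Agent.H656R2.NPC
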