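import Pool.Agent.H656R2.NPC.Prog

/-!
# Binary trees as a universal data type, and the closure properties of polynomial-time
computability on trees.
-/

namespace Pool.Agent.H656R2.NPC

open Function (update)

namespace T

/-- The length of the encoding. -/
def size (t : T) : ℕ := t.enc.length

@[simp] theorem size_nil : size nil = 1 := rfl
@[simp] theorem size_node (l r : T) : size (node l r) = l.size + r.size + 1 := by
  simp [size, enc]

theorem size_pos (t : T) : 0 < t.size := by
  cases t <;> simp

theorem enc_ne_nil (t : T) : t.enc ≠ [] := by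
  cases t <;> simp [enc]

/-- First component (`nil` for `nil`). -/
def hd : T → T
  | nil => nil
  | node l _ => l

/-- Second component (`nil` for `nil`). -/
def tl : T → T
  | nil => nil
  | node _ r => r

@[simp] theorem hd_node (l r : T) : hd (node l r) = l := rfl
@[simp] theorem tl_node (l r : T) : tl (node l r) = r := rfl
@[simp] theorem hd_nil : hd nil = nil := rfl
@[simp] theorem tl_nil : tl nil = nil := rfl

theorem size_hd_le (t : T) : t.hd.size ≤ t.size := by
  cases t <;> simp; omega

theorem size_tl_le (t : T) : t.tl.size ≤ t.size := by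
  cases t <;> simp; omega

end T

/-! ### Basic programs -/

/-- Move stack `i` onto stack `j`, reversing it. -/
def mv (i j : ℕ) : Cmd ℕ :=
  Cmd.loop i (Cmd.cases i Cmd.skip
    (Cmd.seq (Cmd.pop i) (Cmd.push j false)) (Cmd.seq (Cmd.pop i) (Cmd.push j true)))

theorem mv_runs {i j : ℕ} (hij : i ≠ j) : ∀ (l : List Bool) (s s' : ℕ → List Bool), s i = l →
    s' = update (update s i []) j (l.reverse ++ s j) → Runs (mv i j) s s' (4 * l.length + 1) := by
  intro l
  induction l with
  | nil =>
    intro s s' hs hs'
    refine (Runs.loopNil hs).conv rfl ?_ (by simp)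
    rw [hs']
    funext k
    by_cases hk : k = j
    · subst hk; simp
    · by_cases hk' : k = i
      · subst hk'; simp [Function.update_of_ne hk, hs]
      · simp [Function.update_of_ne hk, Function.update_of_ne hk']
  | cons b l ih =>
    intro s s' hs hs'
    have step : Runs (Cmd.cases i Cmd.skip
        (Cmd.seq (Cmd.pop i) (Cmd.push j false)) (Cmd.seq (Cmd.pop i) (Cmd.push j true))) s
        (update (update s i l) j (b :: s j)) 3 := by
      cases b
      · refine (Runs.casesFalse hs ((Runs.pop s i).seq (Runs.push _ j false))).conv rfl ?_ le_rfl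
        rw [hs, Function.update_of_ne hij.symm]
        rfl
      · refine (Runs.casesTrue hs ((Runs.pop s i).seq (Runs.push _ j true))).conv rfl ?_ le_rfl
        rw [hs, Function.update_of_ne hij.symm]
        rfl
    have h1 := ih (update (update s i l) j (b :: s j)) s'
      (by rw [Function.update_of_ne hij, Function.update_self]) (by
        rw [hs']
        funext k
        by_cases hk : k = j
        · subst hk; simp
        · by_cases hk' : k = i
          · subst hk'; simp [Function.update_of_ne hk]
          · simp [Function.update_of_ne hk, Function.update_of_ne hk'])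
    exact (Runs.loopCons (by rw [hs]; simp) step h1).mono (by simp; omega)

/-- Move stack `i` onto stacks `j` and `k`, reversing it. -/
def cp (i j k : ℕ) : Cmd ℕ :=
  Cmd.loop i (Cmd.cases i Cmd.skip
    (Cmd.seq (Cmd.pop i) (Cmd.seq (Cmd.push j false) (Cmd.push k false)))
    (Cmd.seq (Cmd.pop i) (Cmd.seq (Cmd.push j true) (Cmd.push k true))))

theorem cp_runs {i j k : ℕ} (hij : i ≠ j) (hik : i ≠ k) (hjk : j ≠ k) :
    ∀ (l : List Bool) (s s' : ℕ → List Bool), s i = l →
    s' = update (update (update s i []) j (l.reverse ++ s j)) k (l.reverse ++ s k) →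
    Runs (cp i j k) s s' (5 * l.length + 1) := by
  intro l
  induction l with
  | nil =>
    intro s s' hs hs'
    refine (Runs.loopNil hs).conv rfl ?_ (by simp)
    rw [hs']
    funext m
    simp only [Function.update_apply, List.reverse_nil, List.nil_append]
    split_ifs with h1 h2 h3
    · rw [h1]
    · rw [h2]
    · rw [h3, hs]
    · rfl
  | cons b l ih =>
    intro s s' hs hs'
    have step : Runs (Cmd.cases i Cmd.skip
        (Cmd.seq (Cmd.pop i) (Cmd.seq (Cmd.push j false) (Cmd.push k false)))
        (Cmd.seq (Cmd.pop i) (Cmd.seq (Cmd.push j true) (Cmd.push k true)))) s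
        (update (update (update s i l) j (b :: s j)) k (b :: s k)) 4 := by
      cases b
      · refine (Runs.casesFalse hs ((Runs.pop s i).seq
          ((Runs.push _ j false).seq (Runs.push _ k false)))).conv rfl ?_ le_rfl
        rw [hs, Function.update_of_ne hij.symm, Function.update_of_ne hjk.symm,
          Function.update_of_ne hik.symm]
        rfl
      · refine (Runs.casesTrue hs ((Runs.pop s i).seq
          ((Runs.push _ j true).seq (Runs.push _ k true)))).conv rfl ?_ le_rfl
        rw [hs, Function.update_of_ne hij.symm, Function.update_of_ne hjk.symm,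
          Function.update_of_ne hik.symm]
        rfl
    have h1 := ih (update (update (update s i l) j (b :: s j)) k (b :: s k)) s'
      (by rw [Function.update_of_ne hik, Function.update_of_ne hij, Function.update_self]) (by
        rw [hs']
        funext m
        simp only [Function.update_apply, List.reverse_cons, List.append_assoc]
        split_ifs with h1 h2 h3 <;> simp_all)
    exact (Runs.loopCons (by rw [hs]; simp) step h1).mono (by simp; omega)

/-- Empty stack `i`. -/
def clr (i : ℕ) : Cmd ℕ := Cmd.loop i (Cmd.pop i)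

theorem clr_runs {i : ℕ} : ∀ (l : List Bool) (s s' : ℕ → List Bool), s i = l →
    s' = update s i [] → Runs (clr i) s s' (2 * l.length + 1) := by
  intro l
  induction l with
  | nil =>
    intro s s' hs hs'
    refine (Runs.loopNil hs).conv rfl ?_ (by simp)
    rw [hs', ← hs, Function.update_eq_self]
  | cons b l ih =>
    intro s s' hs hs'
    have h1 := ih (update s i l) s' (by simp) (by rw [hs']; simp)
    have h2 := (Runs.pop s i).conv rfl (s₁' := update s i l) (by rw [hs]; rfl) le_rfl
    exact (Runs.loopCons (by rw [hs]; simp) h2 h1).mono (by simp; omega)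

/-- Push a list of bits on stack `i` (the first bit ends up on top). -/
def pushL (i : ℕ) : List Bool → Cmd ℕ
  | [] => Cmd.skip
  | b :: l => Cmd.seq (pushL i l) (Cmd.push i b)

theorem pushL_runs {i : ℕ} : ∀ (l : List Bool) (s s' : ℕ → List Bool),
    s' = update s i (l ++ s i) → Runs (pushL i l) s s' (l.length + 1) := by
  intro l
  induction l with
  | nil => intro s s' hs'; rw [hs']; simpa [pushL] using Runs.skip s
  | cons b l ih =>
    intro s s' hs'
    refine ((ih s _ rfl).seq (Runs.push _ i b)).conv rfl ?_ (by simp)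
    rw [hs']
    simp

/-- The states used in the closure proofs: only stacks `0`, `1`, `2` are nonempty. -/
def st (a b c : List Bool) : ℕ → List Bool := fun i =>
  match i with
  | 0 => a
  | 1 => b
  | 2 => c
  | _ => []

@[simp] theorem st_zero (a b c) : st a b c 0 = a := rfl
@[simp] theorem st_one (a b c) : st a b c 1 = b := rfl
@[simp] theorem st_two (a b c) : st a b c 2 = c := rfl

@[simp] theorem update_st_zero (a b c x) : update (st a b c) 0 x = st x b c := by
  funext i
  match i with
  | 0 => simp
  | 1 => simp [Function.update_of_ne]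
  | 2 => simp [Function.update_of_ne]
  | n + 3 => simp [Function.update_of_ne, st]

@[simp] theorem update_st_one (a b c x) : update (st a b c) 1 x = st a x c := by
  funext i
  match i with
  | 0 => simp [Function.update_of_ne]
  | 1 => simp
  | 2 => simp [Function.update_of_ne]
  | n + 3 => simp [Function.update_of_ne, st]

@[simp] theorem update_st_two (a b c x) : update (st a b c) 2 x = st a b x := by
  funext i
  match i with
  | 0 => simp [Function.update_of_ne]
  | 1 => simp [Function.update_of_ne]
  | 2 => simp
  | n + 3 => simp [Function.update_of_ne, st]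

theorem inp_eq_st (a : List Bool) : (inp a : ℕ → List Bool) = st a [] [] := by
  funext i
  match i with
  | 0 => simp [inp]
  | 1 => simp [inp]
  | 2 => simp [inp]
  | n + 3 => simp [inp, st]

/-- Run a program on the even stacks. -/
def ev (c : Cmd ℕ) : Cmd ℕ := c.map (fun i => 2 * i)

/-- Run a program on the odd stacks. -/
def od (c : Cmd ℕ) : Cmd ℕ := c.map (fun i => 2 * i + 1)

theorem ev_runs {c : Cmd ℕ} {x y : List Bool} {n : ℕ} (h : Runs c (inp x) (inp y) n)
    (b : List Bool) : Runs (ev c) (st x b []) (st y b []) n := by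
  obtain ⟨t, ht, h⟩ := h
  obtain ⟨S', h1, h2, h3⟩ := h.map (f := fun i => 2 * i) (fun a b h => by simpa using h)
    (st x b []) (by
      funext i
      match i with
      | 0 => simp [inp]
      | 1 => simp [inp]
      | n + 2 => simp [inp, st])
  refine ⟨t, ht, ?_⟩
  have : S' = st y b [] := by
    funext i
    rcases Nat.even_or_odd' i with ⟨m, hm | hm⟩
    · have : S' (2 * m) = inp y m := congrFun h2 m
      rw [hm, this]
      match m with
      | 0 => simp [inp]
      | 1 => simp [inp]
      | n + 2 => simp [inp, st]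
    · rw [h3 i (by rintro ⟨a, ha⟩; simp only at ha; omega)]
      match i, hm with
      | 1, _ => rfl
      | n + 3, _ => rfl
      | 0, h => omega
      | 2, h => omega
  rw [← this]
  exact h1

theorem od_runs {c : Cmd ℕ} {x y : List Bool} {n : ℕ} (h : Runs c (inp x) (inp y) n)
    (a : List Bool) : Runs (od c) (st a x []) (st a y []) n := by
  obtain ⟨t, ht, h⟩ := h
  obtain ⟨S', h1, h2, h3⟩ := h.map (f := fun i => 2 * i + 1) (fun a b h => by simpa using h)
    (st a x []) (by
      funext i
      match i with
      | 0 => simp [inp]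
      | n + 1 => simp [inp, st])
  refine ⟨t, ht, ?_⟩
  have : S' = st a y [] := by
    funext i
    rcases Nat.even_or_odd' i with ⟨m, hm | hm⟩
    · rw [h3 i (by rintro ⟨a, ha⟩; simp only at ha; omega)]
      match i, hm with
      | 0, _ => rfl
      | 2, _ => rfl
      | n + 3, _ => rfl
      | 1, h => omega
    · have : S' (2 * m + 1) = inp y m := congrFun h2 m
      rw [hm, this]
      match m with
      | 0 => simp [inp]
      | n + 1 => simp [inp, st]
  rw [← this]
  exact h1

/-! ### Closure properties of `PC` -/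

section Closure

variable {α β γ : Type} {ea : α → List Bool} {eb : β → List Bool} {ec : γ → List Bool}

theorem PC.length_le {f : α → β} (h : PC ea eb f) :
    ∃ p : Polynomial ℕ, ∀ a, (eb (f a)).length ≤ p.eval (ea a).length := by
  obtain ⟨c, p, h⟩ := h
  refine ⟨Polynomial.X + p, fun a => ?_⟩
  obtain ⟨t, ht, hr⟩ := h a
  have := hr.length_le 0
  simp only [inp, Function.update_self] at this
  simp only [Polynomial.eval_add, Polynomial.eval_X]
  omega

theorem PC.comp {g : β → γ} {f : α → β} (hg : PC eb ec g) (hf : PC ea eb f) :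
    PC ea ec (fun a => g (f a)) := by
  obtain ⟨q, hq⟩ := hf.length_le
  obtain ⟨c, p, hf⟩ := hf
  obtain ⟨d, r, hg⟩ := hg
  refine ⟨Cmd.seq c d, p + r.comp q, fun a => ?_⟩
  refine ((hf a).seq (hg (f a))).mono ?_
  simp only [Polynomial.eval_add, Polynomial.eval_comp]
  exact Nat.add_le_add_left (eval_mono r (hq a)) _

theorem PC.id : PC ea ea (fun a => a) :=
  ⟨Cmd.skip, 1, fun a => (Runs.skip _).mono (by simp)⟩

theorem PC.congr {f g : α → β} (hf : PC ea eb f) (h : ∀ a, f a = g a) : PC ea eb g := by
  have : f = g := funext h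
  rwa [← this]

theorem PC.const (b : β) : PC ea eb (fun _ => b) := by
  refine ⟨Cmd.seq (clr 0) (pushL 0 (eb b)),
    Polynomial.C 2 * Polynomial.X + Polynomial.C ((eb b).length + 2), fun a => ?_⟩
  rw [inp_eq_st, inp_eq_st]
  refine ((clr_runs _ _ _ rfl rfl).seq (pushL_runs (eb b) _ _ rfl)).conv rfl ?_ ?_
  · simp
  · simp; omega

/-- The duplication program: `x` on stack `0` becomes `x` on stacks `0` and `1`. -/
theorem dup_runs (x : List Bool) :
    Runs (Cmd.seq (mv 0 2) (cp 2 0 1)) (st x [] []) (st x x []) (9 * x.length + 2) := by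
  refine ((mv_runs (by decide) x _ _ rfl rfl).seq (cp_runs (by decide) (by decide) (by decide)
    x.reverse _ _ (by simp) rfl)).conv rfl ?_ ?_
  · simp
  · simp; omega

end Closure

/-- Polynomial-time computability on trees. -/
def PT (f : T → T) : Prop := PC T.enc T.enc f

section ClosureT

variable {α : Type} {ea : α → List Bool}

theorem PC.node {f g : α → T} (hf : PC ea T.enc f) (hg : PC ea T.enc g) :
    PC ea T.enc (fun a => T.node (f a) (g a)) := by
  obtain ⟨q, hq⟩ := hf.length_le
  obtain ⟨q', hq'⟩ := hg.length_le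
  obtain ⟨c, p, hf⟩ := hf
  obtain ⟨d, r, hg⟩ := hg
  refine ⟨Cmd.seq (Cmd.seq (mv 0 2) (cp 2 0 1)) (Cmd.seq (ev c) (Cmd.seq (od d)
    (Cmd.seq (mv 0 2) (Cmd.seq (mv 2 1) (Cmd.seq (Cmd.push 1 true)
      (Cmd.seq (mv 1 2) (mv 2 0))))))),
    Polynomial.C 9 * Polynomial.X + p + r + Polynomial.C 16 * (q + q') + Polynomial.C 30,
    fun a => ?_⟩
  rw [inp_eq_st, inp_eq_st]
  have h1 := dup_runs (ea a)
  have h2 := ev_runs (hf a) (ea a)
  have h3 := od_runs (hg a) (f a).enc
  have h4 := mv_runs (i := 0) (j := 2) (by decide) (f a).enc (st (f a).enc (g a).enc [])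
    (st [] (g a).enc (f a).enc.reverse) rfl (by simp)
  have h5 := mv_runs (i := 2) (j := 1) (by decide) (f a).enc.reverse
    (st [] (g a).enc (f a).enc.reverse) (st [] ((f a).enc ++ (g a).enc) []) rfl (by simp)
  have h6 := (Runs.push (st [] ((f a).enc ++ (g a).enc) []) 1 true).conv rfl
    (s₁' := st [] (T.node (f a) (g a)).enc []) (by simp [T.enc]) le_rfl
  have h7 := mv_runs (i := 1) (j := 2) (by decide) (T.node (f a) (g a)).enc
    (st [] (T.node (f a) (g a)).enc []) (st [] [] (T.node (f a) (g a)).enc.reverse) rfl (by simp)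
  have h8 := mv_runs (i := 2) (j := 0) (by decide) (T.node (f a) (g a)).enc.reverse
    (st [] [] (T.node (f a) (g a)).enc.reverse) (st (T.node (f a) (g a)).enc [] []) rfl (by simp)
  refine (h1.seq (h2.seq (h3.seq (h4.seq (h5.seq (h6.seq (h7.seq h8))))))).mono ?_
  have := hq a
  have := hq' a
  simp only [T.enc, List.length_reverse, List.length_cons, List.length_append,
    Polynomial.eval_add, Polynomial.eval_mul, Polynomial.eval_C, Polynomial.eval_X]
  omega

/-- The body of the tree scanner. -/
def scanBody : Cmd ℕ :=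
  Cmd.cases 0 Cmd.skip
    (Cmd.seq (Cmd.pop 0) (Cmd.seq (Cmd.push 1 false) (Cmd.pop 2)))
    (Cmd.seq (Cmd.pop 0) (Cmd.seq (Cmd.push 1 true) (Cmd.push 2 false)))

theorem scan_runs : ∀ (t : T) (r o c : List Bool) (s' : ℕ → List Bool) (n : ℕ),
    Runs (Cmd.loop 2 scanBody) (st r (t.enc.reverse ++ o) c) s' n →
    Runs (Cmd.loop 2 scanBody) (st (t.enc ++ r) o (false :: c)) s' (n + 5 * t.size) := by
  intro t
  induction t with
  | nil =>
    intro r o c s' n h
    have h1 : Runs scanBody (st (T.nil.enc ++ r) o (false :: c))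
        (st r (T.nil.enc.reverse ++ o) c) 4 := by
      refine (Runs.casesFalse (l := r) (by simp [T.enc]) ((Runs.pop _ 0).seq ((Runs.push _ 1 false).seq
        (Runs.pop _ 2)))).conv rfl ?_ le_rfl
      simp [T.enc]
    exact (Runs.loopCons (by simp) h1 h).mono (by simp; omega)
  | node a b iha ihb =>
    intro r o c s' n h
    have h1 : Runs scanBody (st ((T.node a b).enc ++ r) o (false :: c))
        (st (a.enc ++ (b.enc ++ r)) (true :: o) (false :: false :: c)) 4 := by
      refine (Runs.casesTrue (l := a.enc ++ (b.enc ++ r)) (by simp [T.enc])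
        ((Runs.pop _ 0).seq ((Runs.push _ 1 true).seq (Runs.push _ 2 false)))).conv rfl ?_ le_rfl
      simp [T.enc]
    have h2 : Runs (Cmd.loop 2 scanBody) (st (b.enc ++ r) (a.enc.reverse ++ (true :: o)) (false :: c))
        s' (n + 5 * b.size) := by
      apply ihb
      simpa [T.enc] using h
    have h3 := iha _ _ _ _ _ h2
    exact (Runs.loopCons (by simp) h1 h3).mono (by simp; omega)

/-- Split the tree on stack `0`: afterwards the reversed code of the first component is on
stack `1` and the code of the second one is on stack `0`. -/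
def split : Cmd ℕ := Cmd.seq (Cmd.pop 0) (Cmd.seq (Cmd.push 2 false) (Cmd.loop 2 scanBody))

theorem split_runs (a b : T) : Runs split (st (T.node a b).enc [] []) (st b.enc a.enc.reverse [])
    (5 * a.size + 3) := by
  refine ((Runs.pop _ 0).seq ((Runs.push _ 2 false).seq ?_)).conv rfl rfl
    (m := 1 + (1 + (1 + 5 * a.size))) (by omega)
  have := scan_runs a b.enc [] [] (st b.enc a.enc.reverse []) 1 (by
    refine (Runs.loopNil (by simp)).conv rfl (by simp) le_rfl)
  simpa [T.enc] using this

theorem PT.hd : PT T.hd := by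
  refine ⟨Cmd.cases 0 Cmd.skip Cmd.skip (Cmd.seq split (Cmd.seq (clr 0) (mv 1 0))),
    Polynomial.C 20 * Polynomial.X + Polynomial.C 20, fun t => ?_⟩
  rw [inp_eq_st, inp_eq_st]
  cases t with
  | nil => exact (Runs.casesFalse (l := []) (by simp [T.enc]) (Runs.skip _)).mono (by simp)
  | node a b =>
    have h1 := split_runs a b
    have h2 := clr_runs (i := 0) b.enc (st b.enc a.enc.reverse []) (st [] a.enc.reverse [])
      (by simp) (by simp)
    have h3 := mv_runs (i := 1) (j := 0) (by decide) a.enc.reverse (st [] a.enc.reverse [])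
      (st a.enc [] []) (by simp) (by simp)
    refine (Runs.casesTrue (l := a.enc ++ b.enc) (by simp [T.enc]) (h1.seq (h2.seq h3))).mono ?_
    simp [T.enc, T.size]
    omega

theorem PT.tl : PT T.tl := by
  refine ⟨Cmd.cases 0 Cmd.skip Cmd.skip (Cmd.seq split (clr 1)),
    Polynomial.C 20 * Polynomial.X + Polynomial.C 20, fun t => ?_⟩
  rw [inp_eq_st, inp_eq_st]
  cases t with
  | nil => exact (Runs.casesFalse (l := []) (by simp [T.enc]) (Runs.skip _)).mono (by simp)
  | node a b =>
    have h1 := split_runs a b
    have h2 := clr_runs (i := 1) a.enc.reverse (st b.enc a.enc.reverse []) (st b.enc [] [])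
      (by simp) (by simp)
    refine (Runs.casesTrue (l := a.enc ++ b.enc) (by simp [T.enc]) (h1.seq h2)).mono ?_
    simp [T.enc, T.size]
    omega

theorem PC.ite {β : Type} {eb : β → List Bool} {f : α → T} {g h : α → β} (hf : PC ea T.enc f)
    (hg : PC ea eb g) (hh : PC ea eb h) :
    PC ea eb (fun a => if f a = T.nil then g a else h a) := by
  obtain ⟨q, hq⟩ := hf.length_le
  obtain ⟨c, p, hf⟩ := hf
  obtain ⟨d, r, hg⟩ := hg
  obtain ⟨e, r', hh⟩ := hh
  refine ⟨Cmd.seq (Cmd.seq (mv 0 2) (cp 2 0 1)) (Cmd.seq (od c)
    (Cmd.cases 1 Cmd.skip (Cmd.seq (clr 1) (ev d)) (Cmd.seq (clr 1) (ev e)))),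
    Polynomial.C 9 * Polynomial.X + p + r + r' + Polynomial.C 2 * q + Polynomial.C 10,
    fun a => ?_⟩
  rw [inp_eq_st, inp_eq_st]
  have h1 := dup_runs (ea a)
  have h2 := od_runs (hf a) (ea a)
  have h3 := clr_runs (i := 1) (f a).enc (st (ea a) (f a).enc []) (st (ea a) [] []) (by simp)
    (by simp)
  have := hq a
  by_cases hn : f a = T.nil
  · have h4 := ev_runs (hg a) []
    have h5 := Runs.casesFalse (k := 1) (l := []) (c₀ := Cmd.skip)
      (ct := Cmd.seq (clr 1) (ev e)) (by simp [hn, T.enc]) (h3.seq h4)
    refine (h1.seq (h2.seq h5)).conv rfl (by simp [hn]) ?_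
    simp only [Polynomial.eval_add, Polynomial.eval_mul, Polynomial.eval_C, Polynomial.eval_X]
    omega
  · have h4 := ev_runs (hh a) []
    obtain ⟨x, y, hxy⟩ : ∃ x y, f a = T.node x y := by
      cases hfa : f a with
      | nil => exact absurd hfa hn
      | node x y => exact ⟨x, y, rfl⟩
    have h5 := Runs.casesTrue (k := 1) (l := x.enc ++ y.enc) (c₀ := Cmd.skip)
      (cf := Cmd.seq (clr 1) (ev d)) (by simp [hxy, T.enc]) (h3.seq h4)
    refine (h1.seq (h2.seq h5)).conv rfl (by simp [hn]) ?_
    simp only [Polynomial.eval_add, Polynomial.eval_mul, Polynomial.eval_C, Polynomial.eval_X]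
    omega

theorem loop_runs {β : Type} {eb : β → List Bool} {f : β → β} {c : Cmd ℕ} {p : Polynomial ℕ}
    (hf : ∀ a : β, Runs c (inp (eb a)) (inp (eb (f a))) (p.eval (eb a).length)) (B : ℕ) :
    ∀ (l : List Bool) (x : β), (∀ k ≤ l.length, (eb (f^[k] x)).length ≤ B) →
      Runs (Cmd.loop 1 (Cmd.seq (Cmd.pop 1) (ev c))) (st (eb x) l [])
        (st (eb (f^[l.length] x)) [] []) ((p.eval B + 2) * l.length + 1) := by
  intro l
  induction l with
  | nil => intro x _; exact (Runs.loopNil (by simp)).mono (by simp)
  | cons b l ih =>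
    intro x hx
    have h1 : Runs (Cmd.pop 1) (st (eb x) (b :: l) []) (st (eb x) l []) 1 :=
      (Runs.pop _ 1).conv rfl (by simp) le_rfl
    have h2 := ev_runs (hf x) l
    have h3 := ih (f x) (fun k hk => by
      rw [← Function.iterate_succ_apply]
      exact hx (k + 1) (by simpa using hk))
    refine (Runs.loopCons (by simp) (h1.seq h2) h3).conv rfl ?_ ?_
    · rw [List.length_cons, Function.iterate_succ_apply]
    · have : p.eval (eb x).length ≤ p.eval B := eval_mono p (hx 0 (Nat.zero_le _))
      simp only [List.length_cons]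
      nlinarith

/-- Bounded iteration: `(n, x) ↦ f^[size n] x`, provided the intermediate results stay
polynomially bounded. -/
theorem PC.iterate {β : Type} {tb : β → T} {n : α → T} {x : α → β} {f : β → β}
    (hn : PC ea T.enc n) (hx : PC ea (fun b => (tb b).enc) x)
    (hf : PC (fun b => (tb b).enc) (fun b => (tb b).enc) f)
    (q : Polynomial ℕ)
    (hq : ∀ a, ∀ k ≤ (n a).size, (tb (f^[k] (x a))).size ≤ q.eval (ea a).length) :
    PC ea (fun b => (tb b).enc) (fun a => f^[(n a).size] (x a)) := by
  have hx' : PC ea T.enc (fun a => tb (x a)) := hx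
  obtain ⟨u', hu'⟩ := hn.length_le
  obtain ⟨d, r, hd⟩ := hn.node hx'
  obtain ⟨c, p, hf⟩ := hf
  refine ⟨Cmd.seq d (Cmd.seq split (Cmd.loop 1 (Cmd.seq (Cmd.pop 1) (ev c)))),
    r + (Polynomial.C 5 * u' + Polynomial.C 3) + ((p.comp q + Polynomial.C 2) * u' +
      Polynomial.C 1), fun a => ?_⟩
  have h1 := hd a
  rw [inp_eq_st, inp_eq_st] at h1
  rw [inp_eq_st, inp_eq_st]
  have h2 := split_runs (n a) (tb (x a))
  have h3 := loop_runs hf (q.eval (ea a).length) (n a).enc.reverse (x a) (by
    intro k hk
    exact hq a k (by simpa [T.size] using hk))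
  refine (h1.seq (h2.seq h3)).conv rfl ?_ ?_
  · simp [T.size]
  · have e1 := hu' a
    simp only [List.length_reverse, Polynomial.eval_add, Polynomial.eval_mul, Polynomial.eval_C,
      Polynomial.eval_comp]
    have e2 : (n a).size = (n a).enc.length := rfl
    rw [e2]
    have e3 : (Polynomial.eval (Polynomial.eval (ea a).length q) p + 2) * (n a).enc.length ≤
      (Polynomial.eval (Polynomial.eval (ea a).length q) p + 2) *
        Polynomial.eval (ea a).length u' := Nat.mul_le_mul_left _ e1
    omega

/-- The comparison loop. -/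
def eqLoop : Cmd ℕ :=
  Cmd.loop 0 (Cmd.cases 0 Cmd.skip
    (Cmd.seq (Cmd.pop 0) (Cmd.cases 2 Cmd.skip (Cmd.pop 2) (Cmd.seq (Cmd.pop 2) (Cmd.push 1 true))))
    (Cmd.seq (Cmd.pop 0) (Cmd.cases 2 Cmd.skip (Cmd.seq (Cmd.pop 2) (Cmd.push 1 true))
      (Cmd.pop 2))))

/-- The mismatch marks produced by comparing two bit strings. -/
def mism : List Bool → List Bool → List Bool → List Bool
  | [], _, m => m
  | _ :: l, [], m => mism l [] m
  | a :: l, b :: l', m => mism l l' (if a = b then m else true :: m)

theorem mism_ne : ∀ (l l' m : List Bool), m ≠ [] → mism l l' m ≠ []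
  | [], _, m, h => by simpa [mism] using h
  | _ :: l, [], m, h => by simpa [mism] using mism_ne l [] m h
  | a :: l, b :: l', m, h => by
    rw [mism]
    apply mism_ne
    split_ifs <;> simp [h]

theorem mism_self : ∀ l : List Bool, mism l l [] = []
  | [] => rfl
  | a :: l => by rw [mism]; simpa using mism_self l

theorem mism_enc : ∀ (a b : T) (r s : List Bool), a ≠ b →
    mism (a.enc ++ r) (b.enc ++ s) [] ≠ []
  | T.nil, T.nil, _, _, h => absurd rfl h
  | T.nil, T.node x y, r, s, _ => by
    simp only [T.enc, List.cons_append, List.nil_append, mism]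
    exact mism_ne _ _ _ (by simp)
  | T.node x y, T.nil, r, s, _ => by
    simp only [T.enc, List.cons_append, List.nil_append, mism]
    exact mism_ne _ _ _ (by simp)
  | T.node x y, T.node z w, r, s, h => by
    simp only [T.enc, List.cons_append, List.append_assoc, mism, if_true]
    by_cases hxz : x = z
    · subst hxz
      have hyw : y ≠ w := fun h' => h (by rw [h'])
      have : ∀ (l u v : List Bool), mism (l ++ u) (l ++ v) [] = mism u v [] := by
        intro l
        induction l with
        | nil => intro u v; rfl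
        | cons a l ih => intro u v; simp [mism, ih]
      rw [this]
      exact mism_enc y w r s hyw
    · exact mism_enc x z _ _ hxz

theorem eqLoop_runs : ∀ (l l' m : List Bool),
    Runs eqLoop (st l m l') (st [] (mism l l' m) (l'.drop l.length)) (6 * l.length + 1)
  | [], l', m => (Runs.loopNil (by simp)).conv rfl (by simp [mism]) (by simp)
  | a :: l, [], m => by
    have ih := eqLoop_runs l [] m
    have h1 : Runs (Cmd.cases 0 Cmd.skip
        (Cmd.seq (Cmd.pop 0) (Cmd.cases 2 Cmd.skip (Cmd.pop 2)
          (Cmd.seq (Cmd.pop 2) (Cmd.push 1 true))))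
        (Cmd.seq (Cmd.pop 0) (Cmd.cases 2 Cmd.skip (Cmd.seq (Cmd.pop 2) (Cmd.push 1 true))
          (Cmd.pop 2)))) (st (a :: l) m []) (st l m []) 4 := by
      cases a
      · refine (Runs.casesFalse (l := l) (by simp) ((Runs.pop _ 0).seq
          (Runs.casesNil (by simp) (Runs.skip _)))).conv rfl ?_ le_rfl
        simp
      · refine (Runs.casesTrue (l := l) (by simp) ((Runs.pop _ 0).seq
          (Runs.casesNil (by simp) (Runs.skip _)))).conv rfl ?_ le_rfl
        simp
    refine (Runs.loopCons (by simp) h1 ih).conv rfl ?_ ?_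
    · simp [mism]
    · simp; omega
  | a :: l, b :: l', m => by
    have ih := eqLoop_runs l l' (if a = b then m else true :: m)
    have h1 : Runs (Cmd.cases 0 Cmd.skip
        (Cmd.seq (Cmd.pop 0) (Cmd.cases 2 Cmd.skip (Cmd.pop 2)
          (Cmd.seq (Cmd.pop 2) (Cmd.push 1 true))))
        (Cmd.seq (Cmd.pop 0) (Cmd.cases 2 Cmd.skip (Cmd.seq (Cmd.pop 2) (Cmd.push 1 true))
          (Cmd.pop 2)))) (st (a :: l) m (b :: l')) (st l (if a = b then m else true :: m) l') 5 := by
      cases a <;> cases b
      · refine (Runs.casesFalse (l := l) (by simp) ((Runs.pop _ 0).seq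
          (Runs.casesFalse (l := l') (by simp) (Runs.pop _ 2)))).conv rfl ?_ (by omega)
        simp
      · refine (Runs.casesFalse (l := l) (by simp) ((Runs.pop _ 0).seq
          (Runs.casesTrue (l := l') (by simp) ((Runs.pop _ 2).seq (Runs.push _ 1 true))))).conv
            rfl ?_ (by omega)
        simp
      · refine (Runs.casesTrue (l := l) (by simp) ((Runs.pop _ 0).seq
          (Runs.casesFalse (l := l') (by simp) ((Runs.pop _ 2).seq (Runs.push _ 1 true))))).conv
            rfl ?_ (by omega)
        simp
      · refine (Runs.casesTrue (l := l) (by simp) ((Runs.pop _ 0).seq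
          (Runs.casesTrue (l := l') (by simp) (Runs.pop _ 2)))).conv rfl ?_ (by omega)
        simp
    refine (Runs.loopCons (by simp) h1 ih).conv rfl ?_ ?_
    · simp [mism]
    · simp; omega

theorem PC.beq {f g : α → T} (hf : PC ea T.enc f) (hg : PC ea T.enc g) :
    PC ea (fun b => (T.ofBool b).enc) (fun a => decide (f a = g a)) := by
  obtain ⟨q, hq⟩ := hf.length_le
  obtain ⟨q', hq'⟩ := hg.length_le
  obtain ⟨c, p, hp⟩ := hf.node hg
  refine ⟨Cmd.seq c (Cmd.seq split (Cmd.seq (mv 1 2) (Cmd.seq eqLoop (Cmd.seq (clr 2)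
    (Cmd.cases 1 (pushL 0 (T.ofBool true).enc)
      (Cmd.seq (clr 1) (pushL 0 (T.ofBool false).enc))
      (Cmd.seq (clr 1) (pushL 0 (T.ofBool false).enc))))))),
    p + Polynomial.C 20 * (q + q') + Polynomial.C 30, fun a => ?_⟩
  have h1 := hp a
  rw [inp_eq_st, inp_eq_st] at h1
  rw [inp_eq_st, inp_eq_st]
  have h2 := split_runs (f a) (g a)
  have h3 := mv_runs (i := 1) (j := 2) (by decide) (f a).enc.reverse
    (st (g a).enc (f a).enc.reverse []) (st (g a).enc [] (f a).enc) (by simp) (by simp)
  have h4 := eqLoop_runs (g a).enc (f a).enc []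
  have h5 := clr_runs (i := 2) ((f a).enc.drop (g a).enc.length)
    (st [] (mism (g a).enc (f a).enc []) ((f a).enc.drop (g a).enc.length))
    (st [] (mism (g a).enc (f a).enc []) []) (by simp) (by simp)
  have e1 := hq a
  have e2 := hq' a
  have key : (mism (g a).enc (f a).enc []).length ≤ (g a).enc.length := by
    have : ∀ (l l' m : List Bool), (mism l l' m).length ≤ l.length + m.length := by
      intro l
      induction l with
      | nil => intro l' m; simp [mism]
      | cons a l ih =>
        intro l' m
        cases l' with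
        | nil => have := ih [] m; simp [mism]; omega
        | cons b l' =>
          have := ih l' (if a = b then m else true :: m)
          rw [mism]
          split_ifs at this ⊢ <;> simp at * <;> omega
    simpa using this (g a).enc (f a).enc []
  have h6 : Runs (Cmd.cases 1 (pushL 0 (T.ofBool true).enc)
      (Cmd.seq (clr 1) (pushL 0 (T.ofBool false).enc))
      (Cmd.seq (clr 1) (pushL 0 (T.ofBool false).enc)))
      (st [] (mism (g a).enc (f a).enc []) []) (st (T.ofBool (decide (f a = g a))).enc [] [])
      (2 * (g a).enc.length + 10) := by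
    by_cases hfg : f a = g a
    · rw [hfg, mism_self]
      refine (Runs.casesNil (by simp) (pushL_runs _ _ _ rfl)).conv rfl ?_ ?_
      · simp
      · simp [T.ofBool, T.enc]
    · have hne := mism_enc (g a) (f a) [] [] (Ne.symm hfg)
      simp only [List.append_nil] at hne
      obtain ⟨b, l, hl⟩ := List.exists_cons_of_ne_nil hne
      have h7 := clr_runs (i := 1) (b :: l) (st [] (b :: l) []) (st [] [] []) (by simp) (by simp)
      rw [hl] at key ⊢
      have e : decide (f a = g a) = false := by simpa using hfg
      rw [e]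
      have h8 := pushL_runs (i := 0) (T.ofBool false).enc (st [] [] [])
        (st (T.ofBool false).enc [] []) (by simp)
      cases b
      · refine (Runs.casesFalse (l := l) (by simp) (h7.seq h8)).mono ?_
        simp [T.ofBool, T.enc] at key ⊢
        omega
      · refine (Runs.casesTrue (l := l) (by simp) (h7.seq h8)).mono ?_
        simp [T.ofBool, T.enc] at key ⊢
        omega
  refine (h1.seq (h2.seq (h3.seq (h4.seq (h5.seq h6))))).mono ?_
  simp only [T.size, List.length_drop, List.length_reverse, Polynomial.eval_add,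
    Polynomial.eval_mul, Polynomial.eval_C]
  omega

/-- From a raw bit string to the tree coding the list of its bits. -/
theorem PC.ofBits : PC (fun x : List Bool => x) (fun x : List Bool => (T.ofList (x.map T.ofBool)).enc)
    (fun x => x) := by
  refine ⟨Cmd.seq (mv 0 1) (Cmd.seq (Cmd.push 0 false) (Cmd.loop 1 (Cmd.cases 1 Cmd.skip
    (Cmd.seq (Cmd.pop 1) (pushL 0 [true, false]))
    (Cmd.seq (Cmd.pop 1) (pushL 0 [true, true, false, false]))))),
    Polynomial.C 20 * Polynomial.X + Polynomial.C 20, fun x => ?_⟩
  rw [inp_eq_st, inp_eq_st]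
  have h1 := mv_runs (i := 0) (j := 1) (by decide) x (st x [] []) (st [] x.reverse [])
    (by simp) (by simp)
  have h2 : Runs (Cmd.push 0 false) (st [] x.reverse []) (st [false] x.reverse []) 1 :=
    (Runs.push _ 0 false).conv rfl (by simp) le_rfl
  have h3 : ∀ (y z : List Bool), Runs (Cmd.loop 1 (Cmd.cases 1 Cmd.skip
    (Cmd.seq (Cmd.pop 1) (pushL 0 [true, false]))
    (Cmd.seq (Cmd.pop 1) (pushL 0 [true, true, false, false]))))
      (st (T.ofList (z.map T.ofBool)).enc y [])
      (st (T.ofList ((y.reverse ++ z).map T.ofBool)).enc [] []) (8 * y.length + 1) := by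
    intro y
    induction y with
    | nil => intro z; exact (Runs.loopNil (by simp)).conv rfl (by simp) (by simp)
    | cons b y ih =>
      intro z
      have ih' := ih (b :: z)
      have hb : Runs (Cmd.cases 1 Cmd.skip
          (Cmd.seq (Cmd.pop 1) (pushL 0 [true, false]))
          (Cmd.seq (Cmd.pop 1) (pushL 0 [true, true, false, false])))
          (st (T.ofList (z.map T.ofBool)).enc (b :: y) [])
          (st (T.ofList ((b :: z).map T.ofBool)).enc y []) 7 := by
        cases b
        · refine (Runs.casesFalse (l := y) (by simp) ((Runs.pop _ 1).seq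
            (pushL_runs _ _ _ rfl))).conv rfl ?_ (by simp)
          simp [T.ofList, T.ofBool, T.enc]
        · refine (Runs.casesTrue (l := y) (by simp) ((Runs.pop _ 1).seq
            (pushL_runs _ _ _ rfl))).conv rfl ?_ (by simp)
          simp [T.ofList, T.ofBool, T.enc]
      refine (Runs.loopCons (by simp) hb ih').conv rfl ?_ ?_
      · simp
      · simp; omega
  refine (h1.seq (h2.seq (h3 x.reverse []))).conv rfl (by simp) ?_
  simp
  omega

end ClosureT

end Pool.Agent.H656R2.NPC
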